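import Mathlib
import Pool.Agent.Lib_c40b0b.Main

/-!
# A hyperbolic free-by-cyclic group with trivial JSJ which is not graphically discrete

The group is the stabiliser of a chamber for an action on 24 chambers of the graph product of
cyclic groups of orders 4, 6, 4, 6, 4, 6 over a hexagon. It is an extension `F_20 ⋊ ℤ`.
-/

namespace Pool.Agent.Results.MP_c40b0b_al.NotGraphicallyDiscrete

open C40b0b

/-- There is a one-ended hyperbolic group `F_n ⋊_φ ℤ` all of whose actions on trees with virtually
cyclic edge stabilisers have a fixed vertex, and a connected locally finite graph `X` with a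
geometric action of it, such that `Aut(X)` has no compact open normal subgroup. -/
theorem result : ∃ (n : ℕ) (φ : MulAut (FreeGroup (Fin n))),
    IsHyperbolicGroup (FreeByCyclic n φ) ∧ IsOneEndedGroup (FreeByCyclic n φ) ∧
    TrivialJSJ (FreeByCyclic n φ) ∧
    ∃ (V : Type) (X : SimpleGraph V) (_ : MulAction (FreeByCyclic n φ) V), X.Connected ∧
      (∀ v, (X.neighborSet v).Finite) ∧ GeometricAction (FreeByCyclic n φ) X ∧
      ¬ AutCompactByDiscrete X :=
  ⟨20, phiE,
    ⟨Gam, X, gAct, X_connected, X_locallyFinite, geometric, X_hyperbolic⟩,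
    ⟨Gam, X, gAct, X_connected, X_locallyFinite, geometric, X_oneEnded⟩,
    fun W T _ => noSplitting W T,
    Gam, X, gAct, X_connected, X_locallyFinite, geometric, notCbD⟩

end Pool.Agent.Results.MP_c40b0b_al.NotGraphicallyDiscrete
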